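import Mathlib
import Pool.Agent.Results.MP_696765_co.IrreducibleUnbounded

set_option autoImplicit false

namespace Pool.Agent.Results.MP_2f2576_co.NoLonelyUnbounded

open Pool.Agent.Results.MP_696765_co.IrreducibleUnbounded

/-- Property (i) of an edge colouring `col` of `X`: every vertex meets at most two edges of each
colour. -/
def AtMostTwo {V C : Type} (X : SimpleGraph V) (col : X.edgeSet → C) : Prop :=
  ∀ (v : V) (a : C), {e : X.edgeSet | v ∈ (e : Sym2 V) ∧ col e = a}.encard ≤ 2

/-- Property (ii): in every circuit, at least two edges have the same colour. -/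
def NoPied {V C : Type} (X : SimpleGraph V) (col : X.edgeSet → C) : Prop :=
  ∀ (v : V) (w : X.Walk v v), w.IsCycle →
    ∃ e f : X.edgeSet, (e : Sym2 V) ∈ w.edges ∧ (f : Sym2 V) ∈ w.edges ∧ e ≠ f ∧ col e = col f

/-- Property (iii): in every circuit, each edge has the same colour as some other edge of that
circuit. -/
def NoLonely {V C : Type} (X : SimpleGraph V) (col : X.edgeSet → C) : Prop :=
  ∀ (v : V) (w : X.Walk v v), w.IsCycle →
    ∀ e : X.edgeSet, (e : Sym2 V) ∈ w.edges →
      ∃ f : X.edgeSet, (f : Sym2 V) ∈ w.edges ∧ f ≠ e ∧ col f = col e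

/-- `X` is a no pied circuit graph: some edge colouring satisfies (i) and (ii). -/
def IsNoPiedCircuitGraph {V : Type} (X : SimpleGraph V) : Prop :=
  ∃ (C : Type) (col : X.edgeSet → C), AtMostTwo X col ∧ NoPied X col

/-- `X` is a no lonely colour graph: some edge colouring satisfies (i) and (iii). -/
def IsNoLonelyColourGraph {V : Type} (X : SimpleGraph V) : Prop :=
  ∃ (C : Type) (col : X.edgeSet → C), AtMostTwo X col ∧ NoLonely X col

theorem IsNoLonelyColourGraph.noPied {V : Type} {X : SimpleGraph V}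
    (h : IsNoLonelyColourGraph X) : IsNoPiedCircuitGraph X := by
  obtain ⟨C, col, h1, h2⟩ := h
  refine ⟨C, col, h1, fun v w hw => ?_⟩
  have hne : w.edges ≠ [] := by
    intro h0
    have := hw.three_le_length
    rw [← SimpleGraph.Walk.length_edges, h0] at this
    simp at this
  obtain ⟨e, he⟩ := List.exists_mem_of_ne_nil _ hne
  have heX : e ∈ X.edgeSet := w.edges_subset_edgeSet he
  obtain ⟨f, hf, hfe, hcol⟩ := h2 v w hw ⟨e, heX⟩ he
  exact ⟨f, ⟨e, heX⟩, hf, he, hfe, hcol⟩

section Cayley

variable {G : Type} [Group G] {H : Set G}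

theorem exists_colour (e : (CayleyGraph H).edgeSet) :
    ∃ h ∈ H, ∃ g : G, (e : Sym2 G) = s(g, h * g) := by
  obtain ⟨e, he⟩ := e
  induction e using Sym2.ind with
  | _ x y =>
    rw [SimpleGraph.mem_edgeSet] at he
    obtain ⟨-, h, hh, h1 | h1⟩ := he
    · exact ⟨h, hh, x, by simp [h1]⟩
    · refine ⟨h, hh, y, ?_⟩
      simp only [h1]
      exact Sym2.eq_swap

/-- The colour of an edge of the Cayley graph. -/
noncomputable def colour (e : (CayleyGraph H).edgeSet) : G := (exists_colour e).choose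

theorem colour_mem (e : (CayleyGraph H).edgeSet) : colour e ∈ H :=
  (exists_colour e).choose_spec.1

theorem colour_spec (e : (CayleyGraph H).edgeSet) :
    ∃ g : G, (e : Sym2 G) = s(g, colour e * g) :=
  (exists_colour e).choose_spec.2

theorem atMostTwo : AtMostTwo (CayleyGraph H) colour := by
  intro v a
  have hsub : (fun e : (CayleyGraph H).edgeSet => (e : Sym2 G)) ''
      {e : (CayleyGraph H).edgeSet | v ∈ (e : Sym2 G) ∧ colour e = a} ⊆
      {s(v, a * v), s(a⁻¹ * v, v)} := by
    rintro _ ⟨e, ⟨hv, hc⟩, rfl⟩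
    obtain ⟨g, hg⟩ := colour_spec e
    rw [hc] at hg
    simp only at hg ⊢
    rw [hg] at hv ⊢
    rcases Sym2.mem_iff.1 hv with h | h
    · left; rw [h]
    · right
      have : g = a⁻¹ * v := by rw [h]; group
      rw [Set.mem_singleton_iff, ← this, h]
  calc _ = ((fun e : (CayleyGraph H).edgeSet => (e : Sym2 G)) ''
      {e : (CayleyGraph H).edgeSet | v ∈ (e : Sym2 G) ∧ colour e = a}).encard :=
        (Subtype.val_injective.encard_image _).symm
    _ ≤ ({s(v, a * v), s(a⁻¹ * v, v)} : Set (Sym2 G)).encard := Set.encard_le_encard hsub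
    _ ≤ ({s(a⁻¹ * v, v)} : Set (Sym2 G)).encard + 1 := Set.encard_insert_le _ _
    _ = 2 := by rw [Set.encard_singleton]; norm_num

/-- The graph of the edges whose colour differs from `a`. -/
def Rest (a : G) : SimpleGraph G where
  Adj x y := ∃ h : (CayleyGraph H).Adj x y, colour ⟨s(x, y), h⟩ ≠ a
  symm := by
    constructor
    rintro x y ⟨h, h1⟩
    refine ⟨h.symm, ?_⟩
    have : (⟨s(y, x), h.symm⟩ : (CayleyGraph H).edgeSet) = ⟨s(x, y), h⟩ :=
      Subtype.ext Sym2.eq_swap
    rw [this]
    exact h1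
  loopless := by
    constructor
    rintro x ⟨h, -⟩
    exact h.ne rfl

theorem Rest.coset {a x y : G} (h : (Rest (H := H) a).Reachable x y) :
    y * x⁻¹ ∈ Subgroup.closure (H \ {a}) := by
  obtain ⟨w⟩ := h
  induction w with
  | nil => simp
  | cons hadj w ih =>
    rename_i u v z
    have key : v * u⁻¹ ∈ Subgroup.closure (H \ {a}) := by
      obtain ⟨h1, h2⟩ := hadj
      obtain ⟨g, hg⟩ := colour_spec ⟨s(u, v), h1⟩
      have hm : colour ⟨s(u, v), h1⟩ ∈ Subgroup.closure (H \ {a}) :=
        Subgroup.subset_closure ⟨colour_mem _, h2⟩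
      simp only at hg
      rcases Sym2.eq_iff.1 hg with ⟨h3, h4⟩ | ⟨h3, h4⟩
      · rw [h4, ← h3]; simpa using hm
      · rw [h4, h3]
        have := Subgroup.inv_mem _ hm
        simpa using this
    have : z * u⁻¹ = (z * v⁻¹) * (v * u⁻¹) := by group
    rw [this]
    exact Subgroup.mul_mem _ ih key

theorem noLonely (hH : IsIrreducibleGeneratingSet H) : NoLonely (CayleyGraph H) colour := by
  intro v w hw e he
  by_contra hcon
  push Not at hcon
  set a := colour e with ha
  obtain ⟨x, y, hxy⟩ : ∃ x y, (e : Sym2 G) = s(x, y) := by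
    induction h : (e : Sym2 G) using Sym2.ind with
    | _ x y => exact ⟨x, y, rfl⟩
  -- the graph with the edges of the circuit
  have hedge : ∀ f, ∀ hf : f ∈ w.edges, f ≠ (e : Sym2 G) →
      colour ⟨f, w.edges_subset_edgeSet hf⟩ ≠ a := by
    intro f hf hne
    exact hcon ⟨f, w.edges_subset_edgeSet hf⟩ hf (fun h => hne (congrArg Subtype.val h))
  let Y : SimpleGraph G := SimpleGraph.fromEdgeSet {f | f ∈ w.edges}
  have hY : ∀ f ∈ w.edges, f ∈ Y.edgeSet := by
    intro f hf
    rw [SimpleGraph.edgeSet_fromEdgeSet]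
    exact ⟨hf, (CayleyGraph H).not_isDiag_of_mem_edgeSet (w.edges_subset_edgeSet hf)⟩
  have hnb : ¬ Y.IsBridge s(x, y) := by
    rw [SimpleGraph.isBridge_iff_forall_cycle_notMem (by rw [← hxy]; exact hY _ he)]
    push Not
    refine ⟨v, w.transfer Y hY, hw.transfer hY, ?_⟩
    rw [SimpleGraph.Walk.edges_transfer, ← hxy]
    exact he
  rw [SimpleGraph.isBridge_iff] at hnb
  push Not at hnb
  have hadjY : Y.Adj x y := by
    have := hY _ he
    rw [hxy] at this
    exact this
  have hle : Y.deleteEdges {s(x, y)} ≤ Rest (H := H) a := by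
    intro p q hpq
    rw [SimpleGraph.deleteEdges_adj, SimpleGraph.fromEdgeSet_adj] at hpq
    obtain ⟨⟨h1, h2⟩, h3⟩ := hpq
    have h1' : s(p, q) ∈ w.edges := h1
    have h4 : s(p, q) ≠ (e : Sym2 G) := by
      rw [hxy]
      exact h3
    exact ⟨w.edges_subset_edgeSet h1', hedge _ h1' h4⟩
  have hco := Rest.coset (hnb.mono hle)
  obtain ⟨g, hg⟩ := colour_spec e
  have hmem : a ∈ Subgroup.closure (H \ {a}) := by
    rw [hxy] at hg
    rcases Sym2.eq_iff.1 hg with ⟨h3, h4⟩ | ⟨h3, h4⟩
    · rw [h4, ← h3] at hco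
      simpa using hco
    · rw [h4, h3] at hco
      have := Subgroup.inv_mem _ hco
      simpa using this
  refine hH.2 a (colour_mem e) ?_
  rw [eq_top_iff, ← hH.1, Subgroup.closure_le]
  intro z hz
  by_cases hza : z = a
  · rw [hza]; exact hmem
  · exact Subgroup.subset_closure ⟨hz, hza⟩

end Cayley

/-- For every finite `m` there is a finite no lonely colour graph, which is therefore also a no pied
circuit graph, whose chromatic number is larger than `m`. -/
theorem result : ∀ m : ℕ, ∃ (V : Type) (_ : Finite V) (X : SimpleGraph V),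
    IsNoLonelyColourGraph X ∧ IsNoPiedCircuitGraph X ∧ (m : ℕ∞) < X.chromaticNumber := by
  intro m
  obtain ⟨G, i1, i2, H, -, hH, hm⟩ :=
    Pool.Agent.Results.MP_696765_co.IrreducibleUnbounded.result m
  have h : IsNoLonelyColourGraph (CayleyGraph H) := ⟨G, colour, atMostTwo, noLonely hH⟩
  exact ⟨G, i2, CayleyGraph H, h, h.noPied, hm⟩

end Pool.Agent.Results.MP_2f2576_co.NoLonelyUnbounded
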